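import Pool.Agent.H77.PUC.FCx
import Pool.Agent.H77.PUC.StmtsD

/-! # COV: the two charts of an analytic map -/

universe u

namespace PUC

open Polynomial Filter Topology Metric

theorem COV_le_one {K : Type*} [NormedField K] [IsUltrametricDist K] {a b : K}
    (h : ‖a - b‖ ≤ 1 / 2) (hb : ‖b‖ ≤ 1) : ‖a‖ ≤ 1 := by
  have e : a = (a - b) + b := by ring
  rw [e]
  exact (IsUltrametricDist.norm_add_le_max _ _).trans (max_le (h.trans (by norm_num)) hb)

theorem COV_ge_one {K : Type*} [NormedField K] [IsUltrametricDist K] {a b : K}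
    (h : ‖a - b‖ ≤ 1 / 2) (hb : 1 ≤ ‖b‖) : 1 ≤ ‖a‖ := by
  by_contra hlt
  push Not at hlt
  have e : b = a - (a - b) := by ring
  have h1 : ‖b‖ ≤ max ‖a‖ ‖a - b‖ := by
    calc ‖b‖ = ‖a - (a - b)‖ := by rw [← e]
      _ ≤ max ‖a‖ ‖a - b‖ := norm_sub_le_max' _ _
  have h2 : max ‖a‖ ‖a - b‖ < 1 := max_lt hlt (h.trans_lt (by norm_num))
  linarith

theorem COV_inv {K E : Type*} [NormedField K] [Field E] [Algebra K E] (Q : Place K E) {x : E}
    (hx : x ∈ Q.ring) (h : 1 ≤ ‖Q.val x‖) : x⁻¹ ∈ Q.ring ∧ ‖Q.val x⁻¹‖ ≤ 1 := by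
  have h0 : Q.val x ≠ 0 := by
    intro h0
    rw [h0, norm_zero] at h
    linarith
  refine ⟨Q.inv_mem_of_val hx h0, ?_⟩
  rw [Q.val_inv hx h0, norm_inv]
  exact inv_le_one_of_one_le₀ h

theorem COV_inv_ge {K E : Type*} [NormedField K] [Field E] [Algebra K E] (Q : Place K E) {x : E}
    (h0 : x ≠ 0) (hx : x ∈ Q.ring) (hx' : x⁻¹ ∈ Q.ring) (h : ‖Q.val x⁻¹‖ ≤ 1) :
    1 ≤ ‖Q.val x‖ := by
  have h1 := Q.val_mul hx hx'
  rw [mul_inv_cancel₀ h0, Q.val_one] at h1
  have h2 := congrArg norm h1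
  rw [norm_one, norm_mul] at h2
  nlinarith [norm_nonneg (Q.val x), norm_nonneg (Q.val x⁻¹)]

theorem sCov : SCov.{u} := by
  classical
  intro K Ω E _ _ _ _ _ _ Φ x hx hA
  obtain ⟨n, T, g, hT, hg⟩ := hA (1 / 2) (by norm_num)
  set T' : Fin n × Bool → Finset Ω := fun ib =>
    if ib.2 then insert (g ib.1)⁻¹ (T ib.1) else insert (g ib.1) (T ib.1) with hT'
  have hgmem : ∀ i, ∀ P ∈ Dom K (T i), g i ∈ P.ring := by
    intro i P hP
    rcases hg i with h | h
    · exact (h P hP).2.1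
    · exact (h P hP).2.1
  have hcov : ∀ P, ∃ ib, P ∈ Dom K (T' ib) := by
    intro P
    obtain ⟨i, hi⟩ := hT P
    have hgi := hgmem i P hi
    by_cases h1 : ‖P.val (g i)‖ ≤ 1
    · refine ⟨(i, false), ?_⟩
      intro t ht
      rw [hT'] at ht
      simp only [Bool.false_eq_true, if_false, Finset.mem_insert] at ht
      rcases ht with rfl | ht
      · exact ⟨hgi, h1⟩
      · exact hi t ht
    · refine ⟨(i, true), ?_⟩
      intro t ht
      rw [hT'] at ht
      simp only [if_true, Finset.mem_insert] at ht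
      rcases ht with rfl | ht
      · exact COV_inv P hgi (le_of_lt (not_le.1 h1))
      · exact hi t ht
  have hpc : ∀ ib, (∀ P ∈ Dom K (T' ib), x ∈ (Φ P).ring ∧ ‖(Φ P).val x‖ ≤ 1) ∨
      (∀ P ∈ Dom K (T' ib), x⁻¹ ∈ (Φ P).ring ∧ ‖(Φ P).val x⁻¹‖ ≤ 1) := by
    rintro ⟨i, b⟩
    cases b with
    | false =>
      have hsub : ∀ P ∈ Dom K (T' (i, false)), P ∈ Dom K (T i) ∧ ‖P.val (g i)‖ ≤ 1 := by
        intro P hP
        refine ⟨fun t ht => hP t ?_, (hP (g i) ?_).2⟩
        · rw [hT']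
          simp only [Bool.false_eq_true, if_false]
          exact Finset.mem_insert_of_mem ht
        · rw [hT']
          simp only [Bool.false_eq_true, if_false]
          exact Finset.mem_insert_self _ _
      rcases hg i with h | h
      · left
        intro P hP
        obtain ⟨h1, h2⟩ := hsub P hP
        obtain ⟨h3, h4, h5⟩ := h P h1
        exact ⟨h3, COV_le_one h5 h2⟩
      · right
        intro P hP
        obtain ⟨h1, h2⟩ := hsub P hP
        obtain ⟨h3, h4, h5⟩ := h P h1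
        exact ⟨h3, COV_le_one h5 h2⟩
    | true =>
      have hsub : ∀ P ∈ Dom K (T' (i, true)), P ∈ Dom K (T i) ∧
          ((g i)⁻¹ ∈ P.ring ∧ ‖P.val (g i)⁻¹‖ ≤ 1) := by
        intro P hP
        refine ⟨fun t ht => hP t ?_, hP (g i)⁻¹ ?_⟩
        · rw [hT']
          simp only [if_true]
          exact Finset.mem_insert_of_mem ht
        · rw [hT']
          simp only [if_true]
          exact Finset.mem_insert_self _ _
      by_cases hgi : g i = 0
      · have hz : ∀ P : Place K Ω, ‖P.val (g i)‖ ≤ 1 := by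
          intro P
          rw [hgi, P.val_zero, norm_zero]
          exact zero_le_one
        rcases hg i with h | h
        · left
          intro P hP
          obtain ⟨h3, h4, h5⟩ := h P (hsub P hP).1
          exact ⟨h3, COV_le_one h5 (hz P)⟩
        · right
          intro P hP
          obtain ⟨h3, h4, h5⟩ := h P (hsub P hP).1
          exact ⟨h3, COV_le_one h5 (hz P)⟩
      · rcases hg i with h | h
        · right
          intro P hP
          obtain ⟨h1, h2, h2'⟩ := hsub P hP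
          obtain ⟨h3, h4, h5⟩ := h P h1
          exact COV_inv (Φ P) h3 (COV_ge_one h5 (COV_inv_ge P hgi h4 h2 h2'))
        · left
          intro P hP
          obtain ⟨h1, h2, h2'⟩ := hsub P hP
          obtain ⟨h3, h4, h5⟩ := h P h1
          have h6 := COV_inv (Φ P) h3 (COV_ge_one h5 (COV_inv_ge P hgi h4 h2 h2'))
          rwa [inv_inv] at h6
  obtain ⟨m, ⟨e⟩⟩ := Finite.exists_equiv_fin (Fin n × Bool)
  refine ⟨m, fun k => T' (e.symm k), ?_, fun k => hpc (e.symm k)⟩
  intro P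
  obtain ⟨ib, hib⟩ := hcov P
  exact ⟨e ib, by simpa using hib⟩

end PUC
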