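import Pool.Agent.H77.PUC.FCx
import Pool.Agent.H77.PUC.StmtsC

/-! # POL: poles of analytic functions of finite level have finite order -/

universe u

namespace PUC

open Polynomial Filter Topology Metric

open Classical in
theorem POL_T {K E : Type*} [Field K] [Field E] [Algebra K E] (Q : Place K E) (f : E) (c : K) :
    Q.val (f - algebraMap K E c)⁻¹ = if f ∈ Q.ring then (Q.val f - c)⁻¹ else 0 := by
  by_cases hf : f ∈ Q.ring
  · rw [if_pos hf]
    have hm : f - algebraMap K E c ∈ Q.ring := Q.ring.sub_mem hf (Q.alg_mem c)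
    have hv : Q.val (f - algebraMap K E c) = Q.val f - c := by
      rw [Q.val_sub hf (Q.alg_mem c), Q.val_algebraMap]
    by_cases h0 : Q.val f - c = 0
    · rw [h0, inv_zero]
      by_cases hg : f - algebraMap K E c = 0
      · rw [hg, inv_zero, Q.val_zero]
      · exact Q.val_of_not_mem (Q.inv_not_mem hm (by rw [hv]; exact h0) hg)
    · rw [Q.val_inv hm (by rw [hv]; exact h0), hv]
  · rw [if_neg hf]
    apply Q.val_inv_of_not_mem
    intro hg
    apply hf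
    have := Q.ring.add_mem _ _ hg (Q.alg_mem c)
    simpa using this

theorem POL_zgact {K Ω : Type*} [Field K] [Field Ω] [Algebra K Ω] [Algebra (RatFunc K) Ω]
    [IsScalarTower K (RatFunc K) Ω] (P : Place K Ω) (σ : Ω ≃ₐ[RatFunc K] Ω) :
    (zz K Ω ∈ (P.gact σ).ring ↔ zz K Ω ∈ P.ring) ∧ (P.gact σ).val (zz K Ω) = P.val (zz K Ω) := by
  have h : σ (zz K Ω) = zz K Ω := by
    unfold zz
    exact σ.commutes _
  rw [Place.mem_gact, Place.val_gact, h]
  exact ⟨Iff.rfl, rfl⟩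

theorem sPol (hPaw : SPaw.{u}) (hRcp : SRcp.{u}) (hPon : SPon.{u}) (hLow : SLow.{u})
    (hLft : SLft.{u}) (hZpl : SZpl.{u}) : SPol.{u} := by
  classical
  intro K Ω E _ _ _ _ _ _ _ _ _ _ _ _ _ p hp hp1 F' _ _ Φ f hf hA hFL A hpol a0
  obtain ⟨c, r1, κ1, hc, hr1, hκ1, hPκ⟩ := hPaw K Ω E F' Φ f hf hA hFL a0
  obtain ⟨lft, hlft1, hlft2, hlft3⟩ := hLft K Ω F'
  obtain ⟨hz1, hz2, hz3⟩ := hZpl K Ω
  set B : Set (Place K Ω) := {P | zz K Ω ∈ P.ring ∧ ‖P.val (zz K Ω) - a0‖ ≤ r1} with hB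
  set T : Place K Ω → K := fun P => (Φ P).val (f - algebraMap K E c)⁻¹ with hT
  have hTv : ∀ P, T P = if f ∈ (Φ P).ring then ((Φ P).val f - c)⁻¹ else 0 := fun P =>
    POL_T (Φ P) f c
  have hTFC : ∀ ε : ℝ, 0 < ε → FCon B ε T :=
    hRcp K Ω E Φ f hf hA c κ1 B hc hκ1 (fun P hP hfP => hPκ P hP.1 hP.2 hfP)
  have hTb : ∀ P ∈ B, ‖T P‖ ≤ κ1⁻¹ := by
    intro P hP
    rw [hTv]
    split_ifs with h
    · rw [norm_inv]
      exact inv_anti₀ hκ1 (hPκ P hP.1 hP.2 h)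
    · rw [norm_zero]; positivity
  have hBg : ∀ (P : Place K Ω) (σ : Ω ≃ₐ[RatFunc K] Ω), P ∈ B → P.gact σ ∈ B := by
    intro P σ hP
    obtain ⟨h1, h2⟩ := POL_zgact P σ
    refine ⟨h1.2 hP.1, ?_⟩
    rw [h2]
    exact hP.2
  have hTag : ∀ P P' : Place K Ω, Agree (F' : Set Ω) P P' → T P = T P' := by
    intro P P' h
    obtain ⟨h1, h2⟩ := hFL P P' h
    rw [hTv, hTv, h2]
    simp only [h1]
  set N : Place K Ω → K := fun P => ∏ γ : F' ≃ₐ[RatFunc K] F', T (P.gact (lft γ)) with hN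
  have hNinv : ∀ (P : Place K Ω) (τ : Ω ≃ₐ[RatFunc K] Ω), N (P.gact τ) = N P := by
    intro P τ
    obtain ⟨e, he⟩ := hlft3 τ
    rw [hN]
    simp only
    rw [← Equiv.prod_comp e (fun γ => T (P.gact (lft γ)))]
    exact Finset.prod_congr rfl fun γ _ => hTag _ _ (he γ P)
  set M : ℝ := κ1⁻¹ with hM
  have hM0 : 0 < M := by positivity
  have hNFC : ∀ ε : ℝ, 0 < ε → FCon B ε N := by
    intro ε hε
    set η : ℝ := min M (ε / M ^ (Fintype.card (F' ≃ₐ[RatFunc K] F') - 1)) with hη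
    have hη0 : 0 < η := lt_min hM0 (by positivity)
    have h1 := FCx_prod (A := B) (η := η) (M := M) hη0 (min_le_left _ _)
      (fun (γ : F' ≃ₐ[RatFunc K] F') P => T (P.gact (lft γ)))
      (fun γ => FCx_act ((lft γ).restrictScalars K) (fun P hP => hBg P (lft γ) hP) (hTFC η hη0))
      (fun γ P hP => hTb _ (hBg P _ hP))
    refine FCx_le ?_ h1
    calc η * M ^ (Fintype.card (F' ≃ₐ[RatFunc K] F') - 1) ≤
        ε / M ^ (Fintype.card (F' ≃ₐ[RatFunc K] F') - 1) *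
          M ^ (Fintype.card (F' ≃ₐ[RatFunc K] F') - 1) := by
          gcongr
          exact min_le_right _ _
      _ = ε := by field_simp
  choose Pa hPa1 hPa2 using hz1
  set H : K → K := fun a => N (Pa a) with hH
  have hNH : ∀ P : Place K Ω, zz K Ω ∈ P.ring → N P = H (P.val (zz K Ω)) := by
    intro P hP
    obtain ⟨σ, hσ⟩ := hz3 P (Pa (P.val (zz K Ω))) ⟨⟨fun _ => hPa1 _, fun _ => hP⟩, (hPa2 _).symm⟩
    rw [hH]
    simp only
    rw [hσ, hNinv]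
  obtain ⟨c0, hc0, hc0r⟩ := NormedField.exists_norm_lt K hr1
  have hc0' : c0 ≠ 0 := norm_pos_iff.1 hc0
  have hpp : 0 < ‖(p : K)‖ := by
    rw [norm_pos_iff]
    exact_mod_cast hp.ne_zero
  have hDisc : (Disc a0 c0 : Set (Place K Ω)) ⊆ B := fun P hP => ⟨hP.1, hP.2.trans hc0r.le⟩
  set R : ℝ := ‖c0‖ / 2 with hR
  have hR0 : 0 < R := by positivity
  have hPA : ∀ ε : ℝ, 0 < ε → PolyApx H ε (closedBall a0 R) := by
    intro ε hε
    have hη : 0 < ‖(p : K)‖ ^ 3 * ε := by positivity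
    have h1 := hPon K Ω p hp hp1 a0 c0 (‖(p : K)‖ ^ 3 * ε) H ⟨hc0', hη, N,
      fun P hP => hNH P hP.1, FCx_mono hDisc (hNFC _ hη)⟩ R hR0 (by rw [hR]; linarith)
    have e : ‖(p : K)‖⁻¹ ^ 3 * (‖(p : K)‖ ^ 3 * ε) = ε := by
      field_simp
    rwa [e] at h1
  have hne : ∃ a1 ∈ closedBall a0 R, H a1 ≠ 0 := by
    have hinf : (closedBall a0 R).Infinite :=
      infinite_of_mem_nhds a0 (closedBall_mem_nhds a0 hR0)
    obtain ⟨a1, ha1, ha1A⟩ := (hinf.sdiff A.finite_toSet).nonempty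
    refine ⟨a1, ha1, ?_⟩
    rw [hH, hN]
    simp only
    rw [Finset.prod_ne_zero_iff]
    intro γ _
    obtain ⟨h1, h2⟩ := POL_zgact (Pa a1) (lft γ)
    have h3 : zz K Ω ∈ ((Pa a1).gact (lft γ)).ring := h1.2 (hPa1 a1)
    have h4 : ((Pa a1).gact (lft γ)).val (zz K Ω) = a1 := by rw [h2, hPa2]
    have hfin : f ∈ (Φ ((Pa a1).gact (lft γ))).ring := by
      by_contra hn
      have := (hpol _ hn).2
      rw [h4] at this
      exact ha1A this
    rw [hTv, if_pos hfin]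
    apply inv_ne_zero
    rw [← norm_pos_iff]
    refine hκ1.trans_le (hPκ _ h3 ?_ hfin)
    rw [h4, ← dist_eq_norm]
    rw [mem_closedBall] at ha1
    have : R ≤ r1 := by rw [hR]; linarith
    linarith
  obtain ⟨m, κ, r, hκ, hr, hlow⟩ := hLow K H a0 R hR0 hPA hne
  set κ2 : ℝ := κ * κ1 ^ (Fintype.card (F' ≃ₐ[RatFunc K] F') - 1) with hκ2
  have hκ20 : 0 < κ2 := by positivity
  set r2 : ℝ := min r r1 with hr2
  refine ⟨m, max (‖c‖ * r2 ^ m) (1 / κ2), r2, lt_min hr hr1, fun P hPz hPa hPr => ?_⟩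
  have hPB : P ∈ B := ⟨hPz, hPr.trans (min_le_right _ _)⟩
  set z : K := P.val (zz K Ω) with hz
  have hz0 : 0 < ‖z - a0‖ := norm_pos_iff.2 (sub_ne_zero.2 hPa)
  have hTlow : κ2 * ‖z - a0‖ ^ m ≤ ‖T P‖ := by
    have h1 : κ * ‖z - a0‖ ^ m ≤ ‖H z‖ := hlow z (by
      rw [mem_closedBall, dist_eq_norm]
      exact hPr.trans (min_le_left _ _))
    rw [← hNH P hPz, hN] at h1
    simp only at h1
    have h2 : ∏ γ : F' ≃ₐ[RatFunc K] F', T (P.gact (lft γ)) =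
        T P * ∏ γ ∈ Finset.univ.erase (1 : F' ≃ₐ[RatFunc K] F'), T (P.gact (lft γ)) := by
      rw [← Finset.mul_prod_erase Finset.univ _ (Finset.mem_univ (1 : F' ≃ₐ[RatFunc K] F'))]
      congr 1
      apply hTag
      intro g hg
      rw [hlft1]
      rfl
    rw [h2, norm_mul, norm_prod] at h1
    have h3 : ∏ γ ∈ Finset.univ.erase (1 : F' ≃ₐ[RatFunc K] F'), ‖T (P.gact (lft γ))‖ ≤
        M ^ (Fintype.card (F' ≃ₐ[RatFunc K] F') - 1) := by
      calc ∏ γ ∈ Finset.univ.erase (1 : F' ≃ₐ[RatFunc K] F'), ‖T (P.gact (lft γ))‖ ≤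
          ∏ γ ∈ Finset.univ.erase (1 : F' ≃ₐ[RatFunc K] F'), M :=
            Finset.prod_le_prod (fun i _ => norm_nonneg _) fun γ _ => hTb _ (hBg P _ hPB)
        _ = M ^ (Fintype.card (F' ≃ₐ[RatFunc K] F') - 1) := by
            rw [Finset.prod_const, Finset.card_erase_of_mem (Finset.mem_univ _),
              Finset.card_univ]
    have h4 : κ * ‖z - a0‖ ^ m ≤ ‖T P‖ * M ^ (Fintype.card (F' ≃ₐ[RatFunc K] F') - 1) :=
      h1.trans (mul_le_mul_of_nonneg_left h3 (norm_nonneg _))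
    rw [hM, inv_pow, ← div_eq_mul_inv, le_div_iff₀ (by positivity)] at h4
    calc κ2 * ‖z - a0‖ ^ m =
        κ * ‖z - a0‖ ^ m * κ1 ^ (Fintype.card (F' ≃ₐ[RatFunc K] F') - 1) := by rw [hκ2]; ring
      _ ≤ ‖T P‖ := h4
  have hTpos : 0 < ‖T P‖ := lt_of_lt_of_le (by positivity) hTlow
  have hfin : f ∈ (Φ P).ring := by
    by_contra hn
    rw [hTv, if_neg hn, norm_zero] at hTpos
    exact lt_irrefl _ hTpos
  have hfc : ‖(Φ P).val f - c‖ * ‖z - a0‖ ^ m ≤ 1 / κ2 := by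
    rw [hTv, if_pos hfin, norm_inv] at hTlow hTpos
    have h5 : 0 < ‖(Φ P).val f - c‖ := inv_pos.1 hTpos
    rw [le_inv_comm₀ (by positivity) h5] at hTlow
    calc ‖(Φ P).val f - c‖ * ‖z - a0‖ ^ m ≤ (κ2 * ‖z - a0‖ ^ m)⁻¹ * ‖z - a0‖ ^ m := by
          gcongr
      _ = 1 / κ2 := by
          field_simp
  have e : (Φ P).val f = ((Φ P).val f - c) + c := by ring
  rw [e]
  calc ‖(Φ P).val f - c + c‖ * ‖z - a0‖ ^ m ≤
      max ‖(Φ P).val f - c‖ ‖c‖ * ‖z - a0‖ ^ m := by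
        gcongr
        exact IsUltrametricDist.norm_add_le_max _ _
    _ ≤ max (‖c‖ * r2 ^ m) (1 / κ2) := by
        rcases le_total ‖(Φ P).val f - c‖ ‖c‖ with h | h
        · rw [max_eq_right h]
          apply le_max_of_le_left
          gcongr
        · rw [max_eq_left h]
          exact le_max_of_le_right hfc

end PUC
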