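import Pool.Agent.H77.PUC.FCx
import Pool.Agent.H77.PUC.StmtsC

/-! # RCP: `1/(f∘Φ - c)` is exactly analytic where `f∘Φ - c` is bounded away from zero -/

universe u

namespace PUC

open Polynomial Filter Topology Metric

theorem RCP_ge {K : Type*} [NormedField K] [IsUltrametricDist K] {a b : K} {δ : ℝ}
    (h : ‖a - b‖ < δ) (hb : δ ≤ ‖b‖) : δ ≤ ‖a‖ := by
  by_contra hlt
  push Not at hlt
  have e : b = a - (a - b) := by ring
  have h1 : ‖b‖ ≤ max ‖a‖ ‖a - b‖ := by
    calc ‖b‖ = ‖a - (a - b)‖ := by rw [← e]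
      _ ≤ max ‖a‖ ‖a - b‖ := norm_sub_le_max' _ _
  have h2 : max ‖a‖ ‖a - b‖ < δ := max_lt hlt h
  linarith

theorem RCP_aux {K : Type*} [Field K] {a b U G c : K} (ha : a ≠ 0) (hb : b ≠ 0)
    (h1 : a = 1 - c * U) (h2 : b = 1 - c * G) : U * a⁻¹ - G * b⁻¹ = (U - G) / (a * b) := by
  field_simp
  rw [h1, h2]
  ring

theorem sRcp : SRcp.{u} := by
  classical
  intro K Ω E _ _ _ _ _ _ Φ f hf hA c κ A hc hκ hAκ ε hε
  have hc' : 0 < ‖c‖ := norm_pos_iff.2 hc
  set δ : ℝ := min 1 (κ / ‖c‖) with hδ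
  have hδ0 : 0 < δ := lt_min one_pos (by positivity)
  have hδ1 : δ ≤ 1 := min_le_left _ _
  have hδ2 : δ ≤ κ / ‖c‖ := min_le_right _ _
  set ε' : ℝ := min (min (κ / 2) (ε * κ ^ 2)) (min (δ / ‖c‖ / 2) (ε * δ ^ 2)) with hε'
  have hε'0 : 0 < ε' := by
    refine lt_min (lt_min ?_ ?_) (lt_min ?_ ?_) <;> positivity
  have he1 : ε' ≤ κ / 2 := (min_le_left _ _).trans (min_le_left _ _)
  have he2 : ε' ≤ ε * κ ^ 2 := (min_le_left _ _).trans (min_le_right _ _)
  have he3 : ε' ≤ δ / ‖c‖ / 2 := (min_le_right _ _).trans (min_le_left _ _)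
  have he4 : ε' ≤ ε * δ ^ 2 := (min_le_right _ _).trans (min_le_right _ _)
  obtain ⟨n, T, g, hT, hg⟩ := hA ε' hε'0
  have key : ∀ i, ∃ g' : Ω, ∀ P ∈ A, P ∈ Dom K (T i) → g' ∈ P.ring ∧
      ‖(Φ P).val (f - algebraMap K E c)⁻¹ - P.val g'‖ ≤ ε := by
    intro i
    rcases hg i with h | h
    · refine ⟨(g i - algebraMap K Ω c)⁻¹, fun P hPA hP => ?_⟩
      obtain ⟨h1, h2, h3⟩ := h P hP
      have h4 := hAκ P hPA h1
      have hv1 : (Φ P).val (f - algebraMap K E c) = (Φ P).val f - c := by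
        rw [(Φ P).val_sub h1 ((Φ P).alg_mem c), (Φ P).val_algebraMap]
      have hv2 : P.val (g i - algebraMap K Ω c) = P.val (g i) - c := by
        rw [P.val_sub h2 (P.alg_mem c), P.val_algebraMap]
      have hm1 : f - algebraMap K E c ∈ (Φ P).ring := (Φ P).ring.sub_mem h1 ((Φ P).alg_mem c)
      have hm2 : g i - algebraMap K Ω c ∈ P.ring := P.ring.sub_mem h2 (P.alg_mem c)
      have h5 : κ ≤ ‖P.val (g i) - c‖ := by
        apply RCP_ge (b := (Φ P).val f - c) _ h4
        rw [show P.val (g i) - c - ((Φ P).val f - c) = -((Φ P).val f - P.val (g i)) by ring,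
          norm_neg]
        linarith
      have hn1 : (Φ P).val f - c ≠ 0 := norm_pos_iff.1 (hκ.trans_le h4)
      have hn2 : P.val (g i) - c ≠ 0 := norm_pos_iff.1 (hκ.trans_le h5)
      refine ⟨P.inv_mem_of_val hm2 (by rw [hv2]; exact hn2), ?_⟩
      rw [(Φ P).val_inv hm1 (by rw [hv1]; exact hn1), P.val_inv hm2 (by rw [hv2]; exact hn2),
        hv1, hv2]
      have e : ((Φ P).val f - c)⁻¹ - (P.val (g i) - c)⁻¹ =
          -((Φ P).val f - P.val (g i)) / (((Φ P).val f - c) * (P.val (g i) - c)) := by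
        field_simp
        ring
      rw [e, norm_div, norm_neg, norm_mul, div_le_iff₀ (by positivity)]
      calc ‖(Φ P).val f - P.val (g i)‖ ≤ ε * κ ^ 2 := h3.trans he2
        _ ≤ ε * (‖(Φ P).val f - c‖ * ‖P.val (g i) - c‖) := by
          rw [pow_two]
          gcongr
    · refine ⟨g i * (1 - algebraMap K Ω c * g i)⁻¹, fun P hPA hP => ?_⟩
      obtain ⟨h1, h2, h3⟩ := h P hP
      set U : K := (Φ P).val f⁻¹ with hU
      have hm1 : 1 - algebraMap K E c * f⁻¹ ∈ (Φ P).ring :=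
        (Φ P).ring.sub_mem (Φ P).ring.one_mem ((Φ P).ring.mul_mem _ _ ((Φ P).alg_mem c) h1)
      have hm2 : 1 - algebraMap K Ω c * g i ∈ P.ring :=
        P.ring.sub_mem P.ring.one_mem (P.ring.mul_mem _ _ (P.alg_mem c) h2)
      have hv1 : (Φ P).val (1 - algebraMap K E c * f⁻¹) = 1 - c * U := by
        rw [(Φ P).val_sub (Φ P).ring.one_mem ((Φ P).ring.mul_mem _ _ ((Φ P).alg_mem c) h1),
          (Φ P).val_one, (Φ P).val_mul ((Φ P).alg_mem c) h1, (Φ P).val_algebraMap]
      have hv2 : P.val (1 - algebraMap K Ω c * g i) = 1 - c * P.val (g i) := by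
        rw [P.val_sub P.ring.one_mem (P.ring.mul_mem _ _ (P.alg_mem c) h2),
          P.val_one, P.val_mul (P.alg_mem c) h2, P.val_algebraMap]
      have h4 : δ ≤ ‖1 - c * U‖ := by
        by_cases hcU : ‖c * U‖ < 1
        · refine hδ1.trans ?_
          apply RCP_ge (b := (1 : K))
          · rw [show 1 - c * U - 1 = -(c * U) by ring, norm_neg]
            exact hcU
          · rw [norm_one]
        · push Not at hcU
          have hU0 : U ≠ 0 := by
            intro h0
            rw [h0, mul_zero, norm_zero] at hcU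
            linarith
          have hfr : f ∈ (Φ P).ring := by
            have := (Φ P).inv_mem_of_val h1 hU0
            rwa [inv_inv] at this
          have hfv : (Φ P).val f = U⁻¹ := by
            have := (Φ P).val_inv h1 hU0
            rwa [inv_inv] at this
          have h5 := hAκ P hPA hfr
          rw [hfv] at h5
          have h6 : 1 - c * U = (U⁻¹ - c) * U := by
            field_simp
          rw [h6, norm_mul]
          rw [norm_mul] at hcU
          have h7 : 1 / ‖c‖ ≤ ‖U‖ := by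
            rw [div_le_iff₀ hc']
            linarith
          calc δ ≤ κ / ‖c‖ := hδ2
            _ = κ * (1 / ‖c‖) := by ring
            _ ≤ ‖U⁻¹ - c‖ * ‖U‖ := by gcongr
      have h5 : δ ≤ ‖1 - c * P.val (g i)‖ := by
        apply RCP_ge (b := 1 - c * U) _ h4
        rw [show 1 - c * P.val (g i) - (1 - c * U) = c * (U - P.val (g i)) by ring, norm_mul]
        calc ‖c‖ * ‖U - P.val (g i)‖ ≤ ‖c‖ * (δ / ‖c‖ / 2) := by
              gcongr
              exact h3.trans he3
          _ = δ / 2 := by field_simp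
          _ < δ := by linarith
      have hn1 : 1 - c * U ≠ 0 := norm_pos_iff.1 (hδ0.trans_le h4)
      have hn2 : 1 - c * P.val (g i) ≠ 0 := norm_pos_iff.1 (hδ0.trans_le h5)
      have hi1 := (Φ P).inv_mem_of_val hm1 (by rw [hv1]; exact hn1)
      have hi2 := P.inv_mem_of_val hm2 (by rw [hv2]; exact hn2)
      refine ⟨P.ring.mul_mem _ _ h2 hi2, ?_⟩
      have e0 : (f - algebraMap K E c)⁻¹ = f⁻¹ * (1 - algebraMap K E c * f⁻¹)⁻¹ := by
        rw [← mul_inv]
        congr 1
        field_simp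
      rw [e0, (Φ P).val_mul h1 hi1, (Φ P).val_inv hm1 (by rw [hv1]; exact hn1), hv1,
        P.val_mul h2 hi2, P.val_inv hm2 (by rw [hv2]; exact hn2), hv2]
      have e : U * (1 - c * U)⁻¹ - P.val (g i) * (1 - c * P.val (g i))⁻¹ =
          (U - P.val (g i)) / ((1 - c * U) * (1 - c * P.val (g i))) :=
        RCP_aux hn1 hn2 rfl rfl
      rw [← hU, e, norm_div, norm_mul, div_le_iff₀ (by positivity)]
      calc ‖U - P.val (g i)‖ ≤ ε * δ ^ 2 := h3.trans he4
        _ ≤ ε * (‖1 - c * U‖ * ‖1 - c * P.val (g i)‖) := by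
          rw [pow_two]
          gcongr
  choose g' hg' using key
  exact ⟨n, T, g', fun P _ => hT P, hg'⟩

end PUC
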