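import Pool.Agent.H77.PUC.FCx
import Pool.Agent.H77.PUC.StmtsD

/-! # RIG: rigidity of analytic maps to the curve -/

universe u

namespace PUC

open Polynomial Filter Topology Metric

theorem RIG_le {K : Type*} [NormedField K] [IsUltrametricDist K] {a b : K} {r : ℝ}
    (h : ‖a - b‖ ≤ r) (ha : ‖a‖ ≤ r) : ‖b‖ ≤ r := by
  have e : b = a - (a - b) := by ring
  rw [e]
  exact (norm_sub_le_max' _ _).trans (max_le ha h)

theorem RIG_mono {K E : Type*} [NormedField K] [Field E] [Algebra K E] {g : ℕ} {x y : E}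
    {ε ε' : ℝ} {Q Q' : Place K E} (hε : ε ≤ ε') (h : CloseAt g x y ε Q Q') :
    CloseAt g x y ε' Q Q' := by
  obtain ⟨h1, h2⟩ := h
  refine ⟨fun a b => ?_, fun a b => ?_⟩
  · obtain ⟨c, d, e⟩ := h1 a b
    exact ⟨c, d.trans hε, e.trans hε⟩
  · obtain ⟨c, d, e⟩ := h2 a b
    exact ⟨c, d.trans hε, e.trans hε⟩

theorem RIG_norm_one {K E : Type*} [NormedField K] [Field E] [Algebra K E] {Q : Place K E} {x : E}
    (hx0 : x ≠ 0) (h1 : x ∈ Q.ring) (h2 : x⁻¹ ∈ Q.ring) (h3 : ‖Q.val x‖ ≤ 1)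
    (h4 : ‖Q.val x⁻¹‖ ≤ 1) : ‖Q.val x‖ = 1 := by
  have h5 := Q.val_mul h1 h2
  rw [mul_inv_cancel₀ hx0, Q.val_one] at h5
  have h6 := congrArg norm h5
  rw [norm_one, norm_mul] at h6
  have h7 : 1 ≤ ‖Q.val x‖ := by
    nlinarith [norm_nonneg (Q.val x), norm_nonneg (Q.val x⁻¹)]
  exact le_antisymm h3 h7

/-- the step `M ↦ ‖p‖⁻³ M²` -/
theorem RIG_step (hGap : SGap.{u}) (hLze : SLze.{u}) (hItg : SItg.{u})
    (hCrd : SCrd.{u}) (hPza : SPza.{u}) (hPzi : SPzi.{u}) (hPzc : SPzc.{u})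
    (K Ω E : Type u) [NontriviallyNormedField K] [IsUltrametricDist K]
    [CompleteSpace K] [IsAlgClosed K] [CharZero K] [Field Ω] [Algebra K Ω]
    [Algebra (RatFunc K) Ω] [IsScalarTower K (RatFunc K) Ω] [Algebra.IsAlgebraic (RatFunc K) Ω]
    [IsAlgClosed Ω] [Field E] [Algebra K E] (p g : ℕ) (hp : p.Prime) (hp1 : ‖(p : K)‖ < 1)
    (hg : 2 ≤ g) (s : K) (x y : E) (hs : ‖s‖ ≤ 1) (hS0 : Smooth0 g s) (hSI : SmoothI g s)
    (hx : x ≠ 0) (hxy : y ^ 2 + y = x ^ (2 * g + 1) + algebraMap K E s * x)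
    (Φ1 Φ2 : Place K Ω → Place K E) (a1 : AnF Φ1 x) (a2 : AnF Φ1 y) (a3 : AnF Φ1 (y / x ^ (g + 1)))
    (b1 : AnF Φ2 x) (b2 : AnF Φ2 y) (b3 : AnF Φ2 (y / x ^ (g + 1)))
    (hinf : ∃ P, x ∉ (Φ1 P).ring) (hzero : ∃ P, x ∈ (Φ1 P).ring ∧ (Φ1 P).val x = 0)
    (M : ℝ) (hM : 0 < M) (hM1 : M < 1) (hcl : ∀ P, CloseAt g x y M (Φ1 P) (Φ2 P)) :
    ∀ P, CloseAt g x y (‖(p : K)‖⁻¹ ^ 3 * M ^ 2) (Φ1 P) (Φ2 P) := by
  have hM2 : 0 < M ^ 2 := by positivity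
  have hG0 : ∀ P, ‖GG g 0 s x y (Φ1 P) (Φ2 P)‖ ≤ ‖(p : K)‖⁻¹ ^ 3 * M ^ 2 := by
    obtain ⟨h1, h2⟩ := hGap K Ω E g 0 s x y hg (Nat.zero_le _) hs hS0 hSI hx hxy Φ1 Φ2
      a1 a2 a3 b1 b2 b3 M hM hM1 hcl
    apply hLze K Ω p hp hp1 _ (M ^ 2) M hM2 h2 h1
    obtain ⟨P, hP⟩ := hinf
    refine ⟨P, ?_⟩
    unfold GG
    rw [if_neg (fun h => hP h.1), (Φ1 P).val_inv_of_not_mem hP, zero_pow (by omega), zero_mul,
      neg_zero, norm_zero]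
    exact hM2.le
  have hG1 : ∀ P, ‖GG g (g - 1) s x y (Φ1 P) (Φ2 P)‖ ≤ ‖(p : K)‖⁻¹ ^ 3 * M ^ 2 := by
    obtain ⟨h1, h2⟩ := hGap K Ω E g (g - 1) s x y hg le_rfl hs hS0 hSI hx hxy Φ1 Φ2
      a1 a2 a3 b1 b2 b3 M hM hM1 hcl
    apply hLze K Ω p hp hp1 _ (M ^ 2) M hM2 h2 h1
    obtain ⟨P, hP1, hP2⟩ := hzero
    refine ⟨P, ?_⟩
    unfold GG
    rw [if_pos ⟨hP1, by rw [hP2, norm_zero]; exact zero_le_one⟩, hP2, zero_pow (by omega),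
      zero_mul, norm_zero]
    exact hM2.le
  intro P
  obtain ⟨c1, c2⟩ := hcl P
  have first : x ∈ (Φ1 P).ring → ‖(Φ1 P).val x‖ ≤ 1 →
      x ∈ (Φ2 P).ring ∧ ‖(Φ2 P).val x‖ ≤ 1 ∧ ‖(Φ1 P).val y‖ ≤ 1 ∧ ‖(Φ2 P).val y‖ ≤ 1 ∧
      ‖(Φ1 P).val x - (Φ2 P).val x‖ < 1 ∧ ‖(Φ1 P).val y - (Φ2 P).val y‖ < 1 ∧
      max ‖(Φ1 P).val x - (Φ2 P).val x‖ ‖(Φ1 P).val y - (Φ2 P).val y‖ ≤
        ‖(p : K)‖⁻¹ ^ 3 * M ^ 2 := by
    intro h1 h2
    obtain ⟨h3, h4, h5⟩ := c1 h1 h2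
    have h6 : ‖(Φ2 P).val x‖ ≤ 1 := RIG_le (h4.trans hM1.le) h2
    have e1 := ((hCrd K E g s x y hx hxy (Φ1 P)).1 h1).2
    have e2 := ((hCrd K E g s x y hx hxy (Φ2 P)).1 h3).2
    have h7 : ‖(Φ1 P).val y‖ ≤ 1 := (hItg K g s hs).1 _ _ h2 e1
    have h8 : ‖(Φ2 P).val y‖ ≤ 1 := (hItg K g s hs).1 _ _ h6 e2
    refine ⟨h3, h6, h7, h8, h4.trans_lt hM1, h5.trans_lt hM1, ?_⟩
    have h9 := (hPza K g s _ _ _ _ hs hS0 h2 h7 h6 h8 e1 e2 (h4.trans_lt hM1)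
      (h5.trans_lt hM1)).2.2.1
    rw [← h9]
    have h10 := hG0 P
    unfold GG at h10
    rwa [if_pos ⟨h1, h2⟩, pow_zero, one_mul] at h10
  refine ⟨fun h1 h2 => ?_, fun h1 h2 => ?_⟩
  · obtain ⟨h3, -, -, -, -, -, h4⟩ := first h1 h2
    exact ⟨h3, (le_max_left _ _).trans h4, (le_max_right _ _).trans h4⟩
  · obtain ⟨h3, h4, h5⟩ := c2 h1 h2
    refine ⟨h3, ?_⟩
    by_cases hA : x ∈ (Φ1 P).ring ∧ ‖(Φ1 P).val x‖ ≤ 1
    · obtain ⟨k1, k2, k3, k4, k5, k6, k7⟩ := first hA.1 hA.2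
      have u2 : ‖(Φ2 P).val x⁻¹‖ ≤ 1 := RIG_le (h4.trans hM1.le) h2
      have n1 := RIG_norm_one hx hA.1 h1 hA.2 h2
      have n2 := RIG_norm_one hx k1 h3 k2 u2
      have e1 := ((hCrd K E g s x y hx hxy (Φ1 P)).1 hA.1).2
      have e2 := ((hCrd K E g s x y hx hxy (Φ2 P)).1 k1).2
      obtain ⟨-, f1, f2⟩ := (hCrd K E g s x y hx hxy (Φ1 P)).2.2.1 hA.1 h1
      obtain ⟨-, f3, f4⟩ := (hCrd K E g s x y hx hxy (Φ2 P)).2.2.1 k1 h3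
      have h9 := (hPzc K g s _ _ _ _ (by omega) hs hS0 hSI n1 k3 n2 k4 e1 e2 k5 k6).1
      rw [f1, f2, f3, f4]
      rw [← h9] at k7
      exact ⟨(le_max_left _ _).trans k7, (le_max_right _ _).trans k7⟩
    · have u2 : ‖(Φ2 P).val x⁻¹‖ ≤ 1 := RIG_le (h4.trans hM1.le) h2
      have e1 := ((hCrd K E g s x y hx hxy (Φ1 P)).2.1 h1).2
      have e2 := ((hCrd K E g s x y hx hxy (Φ2 P)).2.1 h3).2
      have h7 := (hItg K g s hs).2 _ _ h2 e1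
      have h8 := (hItg K g s hs).2 _ _ u2 e2
      have h9 := (hPzi K g s _ _ _ _ (by omega) hs hSI h2 h7 u2 h8 e1 e2 (h4.trans_lt hM1)
        (h5.trans_lt hM1)).2.2.1
      have h10 := hG1 P
      unfold GG at h10
      rw [if_neg hA, Nat.sub_self, pow_zero, one_mul, norm_neg, h9] at h10
      exact ⟨(le_max_left _ _).trans h10, (le_max_right _ _).trans h10⟩

theorem sRig (hGap : SGap.{u}) (hLze : SLze.{u}) (hSmo : SSmo.{u}) (hItg : SItg.{u})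
    (hCrd : SCrd.{u}) (hPza : SPza.{u}) (hPzi : SPzi.{u}) (hPzc : SPzc.{u}) : SRig.{u} := by
  intro K Ω E _ _ _ _ _ _ _ _ _ _ _ _ _ p g hp hp1 hg s x y hAdm hx hxy Φ1 Φ2 a1 a2 a3 b1 b2 b3
    ε hε hcl hinf hzero
  obtain ⟨hs, hS0, hSI⟩ := hSmo K p g s hp hp1 (by omega) hAdm
  have hpp : 0 < ‖(p : K)‖ := by
    rw [norm_pos_iff]
    exact_mod_cast hp.ne_zero
  set C : ℝ := ‖(p : K)‖⁻¹ ^ 3 with hC
  have hC0 : 0 < C := by positivity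
  have hall : ∀ δ : ℝ, 0 < δ → ∀ P, CloseAt g x y δ (Φ1 P) (Φ2 P) := by
    intro δ hδ
    rcases le_or_gt ε 0 with hε0 | hε0
    · exact fun P => RIG_mono (hε0.trans hδ.le) (hcl P)
    set θ : ℝ := C * ε with hθ
    have hθ0 : 0 < θ := by positivity
    have hθ1 : θ < 1 := by
      rw [hθ, hC, inv_pow, inv_mul_lt_one₀ (by positivity)]
      exact hε
    have hε1 : ε < 1 := by
      refine hε.trans ?_
      exact pow_lt_one₀ hpp.le hp1 (by norm_num)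
    have hn : ∀ n : ℕ, ∀ P, CloseAt g x y (θ ^ n * ε) (Φ1 P) (Φ2 P) := by
      intro n
      induction n with
      | zero => simpa using hcl
      | succ n ih =>
        have hpos : 0 < θ ^ n * ε := by positivity
        have hlt : θ ^ n * ε < 1 := by
          calc θ ^ n * ε ≤ 1 * ε := by
                gcongr
                exact pow_le_one₀ hθ0.le hθ1.le
            _ < 1 := by rw [one_mul]; exact hε1
        intro P
        refine RIG_mono ?_ (RIG_step hGap hLze hItg hCrd hPza hPzi hPzc K Ω E p g hp hp1 hg s x y hs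
          hS0 hSI hx hxy Φ1 Φ2 a1 a2 a3 b1 b2 b3 hinf hzero (θ ^ n * ε) hpos hlt ih P)
        rw [← hC]
        calc C * (θ ^ n * ε) ^ 2 = θ ^ (n + 1) * ε * θ ^ n := by rw [hθ]; ring
          _ ≤ θ ^ (n + 1) * ε * 1 := by
              gcongr
              exact pow_le_one₀ hθ0.le hθ1.le
          _ = θ ^ (n + 1) * ε := mul_one _
    obtain ⟨n, hn'⟩ := exists_pow_lt_of_lt_one (div_pos hδ hε0) hθ1
    intro P
    refine RIG_mono ?_ (hn n P)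
    rw [lt_div_iff₀ hε0] at hn'
    exact hn'.le
  have heq : ∀ a b : K, (∀ δ : ℝ, 0 < δ → ‖a - b‖ ≤ δ) → a = b := by
    intro a b h
    have h1 : ‖a - b‖ ≤ 0 := le_of_forall_pos_le_add fun δ hδ => by
      rw [zero_add]; exact h δ hδ
    exact sub_eq_zero.1 (norm_le_zero_iff.1 h1)
  intro P
  by_cases hA : x ∈ (Φ1 P).ring ∧ ‖(Φ1 P).val x‖ ≤ 1
  · have h1 : x ∈ (Φ2 P).ring := ((hall 1 one_pos P).1 hA.1 hA.2).1
    have h2 : (Φ1 P).val x = (Φ2 P).val x := heq _ _ fun δ hδ =>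
      ((hall δ hδ P).1 hA.1 hA.2).2.1
    have h3 : (Φ1 P).val y = (Φ2 P).val y := heq _ _ fun δ hδ =>
      ((hall δ hδ P).1 hA.1 hA.2).2.2
    have h4 := ((hCrd K E g s x y hx hxy (Φ1 P)).1 hA.1).1
    have h5 := ((hCrd K E g s x y hx hxy (Φ2 P)).1 h1).1
    exact ⟨⟨⟨fun _ => h1, fun _ => hA.1⟩, h2⟩, ⟨⟨fun _ => h5, fun _ => h4⟩, h3⟩⟩
  · have hB : x⁻¹ ∈ (Φ1 P).ring ∧ ‖(Φ1 P).val x⁻¹‖ ≤ 1 := by
      by_cases h : x ∈ (Φ1 P).ring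
      · have h1 : 1 < ‖(Φ1 P).val x‖ := by
          by_contra hn
          exact hA ⟨h, not_lt.1 hn⟩
        have h0 : (Φ1 P).val x ≠ 0 := by
          intro h0
          rw [h0, norm_zero] at h1
          linarith
        refine ⟨(Φ1 P).inv_mem_of_val h h0, ?_⟩
        rw [(Φ1 P).val_inv h h0, norm_inv]
        exact inv_le_one_of_one_le₀ h1.le
      · refine ⟨(Φ1 P).inv_mem_of_not_mem h, ?_⟩
        rw [(Φ1 P).val_inv_of_not_mem h, norm_zero]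
        exact zero_le_one
    have h1 : x⁻¹ ∈ (Φ2 P).ring := ((hall 1 one_pos P).2 hB.1 hB.2).1
    have h2 : (Φ1 P).val x⁻¹ = (Φ2 P).val x⁻¹ := heq _ _ fun δ hδ =>
      ((hall δ hδ P).2 hB.1 hB.2).2.1
    have h3 : (Φ1 P).val (y / x ^ (g + 1)) = (Φ2 P).val (y / x ^ (g + 1)) := heq _ _ fun δ hδ =>
      ((hall δ hδ P).2 hB.1 hB.2).2.2
    have hxi : x⁻¹ ≠ 0 := inv_ne_zero hx
    by_cases h0 : (Φ1 P).val x⁻¹ = 0
    · have n1 : x ∉ (Φ1 P).ring := by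
        have := (Φ1 P).inv_not_mem hB.1 h0 hxi
        rwa [inv_inv] at this
      have n2 : x ∉ (Φ2 P).ring := by
        have := (Φ2 P).inv_not_mem h1 (by rw [← h2]; exact h0) hxi
        rwa [inv_inv] at this
      have m1 := (hCrd K E g s x y hx hxy (Φ1 P)).2.2.2 (by omega) n1
      have m2 := (hCrd K E g s x y hx hxy (Φ2 P)).2.2.2 (by omega) n2
      refine ⟨⟨⟨fun h => absurd h n1, fun h => absurd h n2⟩, ?_⟩,
        ⟨⟨fun h => absurd h m1, fun h => absurd h m2⟩, ?_⟩⟩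
      · rw [(Φ1 P).val_of_not_mem n1, (Φ2 P).val_of_not_mem n2]
      · rw [(Φ1 P).val_of_not_mem m1, (Φ2 P).val_of_not_mem m2]
    · have n1 : x ∈ (Φ1 P).ring := by
        have := (Φ1 P).inv_mem_of_val hB.1 h0
        rwa [inv_inv] at this
      have n2 : x ∈ (Φ2 P).ring := by
        have := (Φ2 P).inv_mem_of_val h1 (by rw [← h2]; exact h0)
        rwa [inv_inv] at this
      have v1 : (Φ1 P).val x = ((Φ1 P).val x⁻¹)⁻¹ := by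
        have := (Φ1 P).val_inv hB.1 h0
        rwa [inv_inv] at this
      have v2 : (Φ2 P).val x = ((Φ2 P).val x⁻¹)⁻¹ := by
        have := (Φ2 P).val_inv h1 (by rw [← h2]; exact h0)
        rwa [inv_inv] at this
      have vx : (Φ1 P).val x = (Φ2 P).val x := by rw [v1, v2, h2]
      have m1 := ((hCrd K E g s x y hx hxy (Φ1 P)).1 n1).1
      have m2 := ((hCrd K E g s x y hx hxy (Φ2 P)).1 n2).1
      obtain ⟨f0, -, f2⟩ := (hCrd K E g s x y hx hxy (Φ1 P)).2.2.1 n1 hB.1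
      obtain ⟨f0', -, f4⟩ := (hCrd K E g s x y hx hxy (Φ2 P)).2.2.1 n2 h1
      refine ⟨⟨⟨fun _ => n2, fun _ => n1⟩, vx⟩, ⟨⟨fun _ => m2, fun _ => m1⟩, ?_⟩⟩
      rw [f2, f4, vx] at h3
      exact (div_left_inj' (pow_ne_zero _ f0')).1 h3

end PUC
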